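import Mathlib
import Pool.Agent.W873.Tp.Force
import Pool.Agent.W873.Tp.Quot

set_option autoImplicit false

/-!
# CH does not imply the transformation property of the Cohen and random algebras

The principle `Φ(I)` (`Phi I`) says: for every map `c` from the set of the sequences `ω → I` to
`ω₁` there is `δ < ω₁` such that the set of the `{k : x k = y k}`, where `c x ≤ δ` and `c y ≤ δ`,
is uncountable.

* If `κ` is supercompact, then there is a forcing notion `P` (the collapse of some `μ < κ` to `ω`)
  which forces CH and `Φ(I)` for some infinite set `I` of the ground model.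
* CH and `Φ(I)` imply that Cohen forcing `ℂ(I)` and random forcing `𝔹(I)` do not have the
  transformation property, not even for nice names.

So the second part, applied in the forcing extension of the first part, shows that it is consistent
with CH that the transformation property fails for `ℂ(I)` and for `𝔹(I)`.
-/

namespace Pool.Agent.Results.MP_b7a9b7_lc.TransformationFails

open Cardinal Pool.Agent.W873.Tp

/-- The first part is about the forcing extension: all conditions force that the well-order `W` of
the ground model is `ω₁`, that `W` enumerates all subsets of `ω` (so CH holds), and that `Φ(I)`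
holds. The second part is a theorem of ZFC. -/
theorem result :
    (∀ κ : Cardinal.{0}, IsSupercompact κ →
      ∃ (P : Type) (_ : Preorder P) (W : Type) (_ : LinearOrder W) (I : Type),
        Nonempty P ∧ WellFoundedLT W ∧ Infinite I ∧
        ∀ p : P, p ∈ OmegaOneIs P W ∧ p ∈ EnumReals P W ∧ p ∈ ForcedPhi P W I) ∧
    (∀ I : Type, Infinite I → (2 : Cardinal.{0}) ^ ℵ₀ = ℵ₁ → Phi I →
      ((∃ P, IsCohen I P) ∧ ∀ P, IsCohen I P → TransFails P) ∧
      ((∃ P, IsRandom I P) ∧ ∀ P, IsRandom I P → TransFails P)) := by
  refine ⟨fun κ hκ => ?_, fun I _ hCH hPhi => ⟨⟨exists_quotient idl_meagre, fun P hP => ?_⟩,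
    ⟨exists_quotient idl_null, fun P hP => ?_⟩⟩⟩
  · obtain ⟨μ, A, hμ, h2, hA, hH⟩ := exists_HH hκ
    have hM : #μ.out = μ := mk_out μ
    refine ⟨Col μ.out, inferInstance, (Order.succ μ).ord.ToType, inferInstance, A,
      inferInstance, inferInstance, hA, fun p => ⟨Col.omegaOne hμ hM p,
      Col.enumReals hμ hM h2 p, Col.forcedPhi hμ hM hH p⟩⟩
  · exact transFails_quotient idl_meagre bs_meagre bs_diff_meagre hP hCH hPhi
  · exact transFails_quotient idl_null bs_null bs_diff_null hP hCH hPhi

end Pool.Agent.Results.MP_b7a9b7_lc.TransformationFails
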